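import Mathlib
import Pool.Agent.MP_d04dff_lc_Exists

/-!
# How long the conditions that replace an oracle must be

Answer to Q2 of `MP_d04dff_lc`: conditions of length `O(n² 2ⁿ)` always suffice, and for some
oracles the length `2ⁿ / poly(n)` is necessary, so no polynomial bound is possible.
-/

namespace Pool.Agent.Results.MP_d04dff_lc.ConditionLength

open Pool.Agent.MP_d04dff_lc

/-- Optimal machines exist, for conditional complexity and relative to oracles (this is the
classical theorem of Solomonoff and Kolmogorov; it shows that `result` is not vacuous). -/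
theorem optimal_machines_exist :
    (∃ U : Str × Str →. Str, IsOptimalMachine U) ∧ ∃ M : OracleMachine, M.IsOptimal :=
  ⟨exists_optimalMachine, exists_optimal_oracleMachine⟩

/-- a polynomial is eventually smaller than `2ⁿ` divided by another polynomial -/
lemma exists_pow_gt (q : Polynomial ℕ) (d : ℕ) :
    ∃ n ≥ 1, d * n ^ d * (q.eval n + 1) < 2 ^ n := by
  classical
  -- the polynomial `P = d X^d (q + 1)` over the reals is `o(2^n)`
  let P : Polynomial ℕ := Polynomial.C d * Polynomial.X ^ d * (q + 1)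
  have hP : ∀ n : ℕ, P.eval n = d * n ^ d * (q.eval n + 1) := by
    intro n; simp [P]
  -- `P(n) ≤ K n^D` for `n ≥ 1`
  have hbound : ∀ Q : Polynomial ℕ, ∃ K D : ℕ, ∀ n ≥ 1, Q.eval n ≤ K * n ^ D := by
    intro Q
    induction Q using Polynomial.induction_on' with
    | add p r hp hr =>
      obtain ⟨K1, D1, h1⟩ := hp
      obtain ⟨K2, D2, h2⟩ := hr
      refine ⟨K1 + K2, D1 + D2, fun n hn => ?_⟩
      rw [Polynomial.eval_add, Nat.add_mul]
      refine add_le_add ((h1 n hn).trans (Nat.mul_le_mul_left _ ?_))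
        ((h2 n hn).trans (Nat.mul_le_mul_left _ ?_))
      · exact Nat.pow_le_pow_right hn (by omega)
      · exact Nat.pow_le_pow_right hn (by omega)
    | monomial m a => exact ⟨a, m, fun n _ => by simp⟩
  obtain ⟨K, D, hKD⟩ := hbound P
  have hlim := tendsto_pow_const_div_const_pow_of_one_lt D (show (1 : ℝ) < 2 by norm_num)
  have hev : ∀ᶠ n : ℕ in Filter.atTop, (n : ℝ) ^ D / 2 ^ n < 1 / (K + 1) :=
    hlim.eventually_lt_const (by positivity)
  obtain ⟨n, hn1, hn⟩ := ((Filter.eventually_ge_atTop 1).and hev).exists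
  refine ⟨n, hn1, ?_⟩
  rw [← hP]
  refine (hKD n hn1).trans_lt ?_
  rw [div_lt_div_iff₀ (by positivity) (by positivity)] at hn
  have h3 : ((K * n ^ D : ℕ) : ℝ) < ((2 ^ n : ℕ) : ℝ) := by
    push_cast
    have h4 : (0 : ℝ) ≤ (n : ℝ) ^ D := by positivity
    nlinarith
  exact_mod_cast h3

/-- **How long the strings `x_n` must be.** For every infinite binary sequence `X` there are
simulating strings `x_n` of length `O(n² 2ⁿ)` (with constants not depending on `X`). There is an `X`
such that every `x` that simulates `X` at level `n` with precision `c log n + c` satisfies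
`|x| + 1 ≥ 2ⁿ / (d n^d)`, where `d` depends only on `c`; in particular, for every polynomial `q`, no
simulating sequence `(x_n)` for this `X` satisfies `|x_n| ≤ q(n)` for all `n`. -/
theorem result (U : Str × Str →. Str) (hU : IsOptimalMachine U)
    (M : OracleMachine) (hM : M.IsOptimal) :
    (∃ c : ℕ, ∀ X : ℕ → Bool, ∃ x : ℕ → Str, ∀ n ≥ 1,
      (x n).length ≤ c * n ^ 2 * 2 ^ n ∧ Close U M X c n (x n)) ∧
    (∃ X : ℕ → Bool,
      (∀ c : ℕ, ∃ d : ℕ, ∀ n ≥ 1, ∀ x : Str, Close U M X c n x →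
        2 ^ n ≤ d * n ^ d * (x.length + 1)) ∧
      ∀ (q : Polynomial ℕ) (x : ℕ → Str), (∃ c : ℕ, ∀ n ≥ 1, Close U M X c n (x n)) →
        ¬ ∀ n ≥ 1, (x n).length ≤ q.eval n) := by
  refine ⟨simulation U hU M hM, ?_⟩
  obtain ⟨X, b, h⟩ := lower_bound U M hM
  have key : ∀ c : ℕ, ∃ d : ℕ, ∀ n ≥ 1, ∀ x : Str, Close U M X c n x →
      2 ^ n ≤ d * n ^ d * (x.length + 1) := by
    intro c
    refine ⟨2 ^ (b + c) + (c + 2), fun n hn x hx => (h c n x hn hx).trans ?_⟩
    refine Nat.mul_le_mul_right _ (Nat.mul_le_mul (Nat.le_add_right _ _) ?_)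
    exact Nat.pow_le_pow_right hn (Nat.le_add_left _ _)
  refine ⟨X, key, ?_⟩
  rintro q x ⟨c, hc⟩ hcon
  obtain ⟨d, hd⟩ := key c
  obtain ⟨n, hn, hlt⟩ := exists_pow_gt q d
  have h1 := hd n hn (x n) (hc n hn)
  have h2 : d * n ^ d * ((x n).length + 1) ≤ d * n ^ d * (q.eval n + 1) :=
    Nat.mul_le_mul_left _ (by have := hcon n hn; omega)
  omega

end Pool.Agent.Results.MP_d04dff_lc.ConditionLength
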