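import Mathlib
import Pool.Agent.MP_d04dff_lc_Exists

/-!
# Every oracle can be replaced by finite conditions, with logarithmic precision

Positive answer to Q1 of `MP_d04dff_lc`.

Idea of the proof. Fix `n`, and let the atoms be the pairs `(s, k)` with `|s| ≤ n`, `k ≤ n + O(1)`.
For every string `y` of a certain length `ℓ = O(n² 2ⁿ)` we play a game: the adversary enumerates the
atoms with `C(s | y) ≤ k`, and we enumerate atoms by our own machine. When a string `y` arrives at
a position of the game (a list of moves), it gets, by its rank among the arrivals, the instruction to
stay there or to make at once one of our moves. On the oracle side we follow one position `q`, of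
which we only know that many strings have arrived there. When a new atom with `C^X(s) ≤ k` appears,
many strings have been instructed to make this move, so `q` can be extended by it; and when all the
strings that arrived at `q` have left it, then many of them left by the same move of the adversary,
and `q` is extended by this move. In the limit some string `y` stays at `q` for ever, and both sides
have enumerated the same atoms.
-/

namespace Pool.Agent.Results.MP_d04dff_lc.Simulation

open Pool.Agent.MP_d04dff_lc

/-- Optimal machines exist, for conditional complexity and relative to oracles (this is the
classical theorem of Solomonoff and Kolmogorov; it shows that `result` is not vacuous). -/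
theorem optimal_machines_exist :
    (∃ U : Str × Str →. Str, IsOptimalMachine U) ∧ ∃ M : OracleMachine, M.IsOptimal :=
  ⟨exists_optimalMachine, exists_optimal_oracleMachine⟩

/-- **Every infinite binary sequence `X` is simulated with logarithmic precision by a sequence of
finite strings `x_n`**, with `|x_n| = O(n² 2ⁿ)` and with constants that do not depend on `X`. -/
theorem result (U : Str × Str →. Str) (hU : IsOptimalMachine U)
    (M : OracleMachine) (hM : M.IsOptimal) :
    ∃ c : ℕ, ∀ X : ℕ → Bool, ∃ x : ℕ → Str, ∀ n ≥ 1,
      (x n).length ≤ c * n ^ 2 * 2 ^ n ∧ Close U M X c n (x n) :=
  simulation U hU M hM

end Pool.Agent.Results.MP_d04dff_lc.Simulation
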